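import Mathlib
import Pool.Agent.H8.Bare

namespace Pool.Agent.Results.MP_e8be47_lc.NoFam

open Pool.Agent.H8.Card Cardinal

theorem result (h1 : ℵ₁ < sNum) (h2 : rNum < (𝔠 : Cardinal.{0}).ord.cof) :
    ¬ ((∃ I, Barely.{0} ℵ₁ I) ∨ ∃ I, Barely.{0} 𝔠 I) :=
  not_or.2 ⟨no_barely_s (by rw [isRegular_aleph_one.cof_ord]; exact aleph0_lt_aleph_one) h1,
    no_barely_r h2⟩

end Pool.Agent.Results.MP_e8be47_lc.NoFam
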